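import Pool.Agent.R19.CaseAB

/-! LEMMA J (R19, STAR(2/3); proof of helper44 after helper73 and helper18, Lean by helper55).

A strand `A` of `n` pieces hangs down from `x`, a strand `G` of `N` pieces goes up from `0`; the
mass of the pairs whose lowest common site is at depth at most `g` below `x`, with a given
displacement `y` of `A`. -/

set_option autoImplicit false
set_option linter.unusedSectionVars false
set_option linter.style.longLine false
set_option linter.unusedVariables false

namespace Pool.Agent.R19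

open Finset
open Classical

section J

variable {P : Type*} [Inhabited P] {V : Type*} [AddCommGroup V]

/-- mass of the lists of `n` pieces with displacement `y` -/
noncomputable def wn (F : Finset P) (w : P → ℝ) (D : P → V) (n : ℕ) (y : V) : ℝ :=
  EE F w n (fun A => if SS D A n = y then 1 else 0)

variable {F : Finset P} {w : P → ℝ} {D D' : P → V} {ht : V →+ ℤ} {pts pts' : P → Set V} {Γ : Set V}

theorem wn_nonneg (hw : ∀ p ∈ F, 0 ≤ w p) (n : ℕ) (y : V) : 0 ≤ wn F w D n y :=
  EE_nonneg hw (fun _ _ => by split <;> norm_num)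

theorem wn_le_one (hw : ∀ p ∈ F, 0 ≤ w p) (hw1 : ∑ p ∈ F, w p ≤ 1) (n : ℕ) (y : V) :
    wn F w D n y ≤ 1 :=
  EE_le_one hw hw1 zero_le_one (fun _ _ => by split <;> norm_num)

/-- sum over the last piece -/
theorem EE_last (n : ℕ) (Φ : (ℕ → P) → ℝ) : EE F w (n + 1) Φ =
    ∑ p ∈ F, w p * EE F w n (fun f => Φ (glue n f (cns p (fun _ => default)))) := by
  rw [EE_add]
  change EE F w n (fun f => ∑ p ∈ F, w p * Φ (glue n f (cns p (fun _ => default)))) = _
  rw [EE_sum]
  refine Finset.sum_congr rfl ?_
  intro p _
  rw [EE_mul_left]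

theorem SS_glue_last (n : ℕ) (f : ℕ → P) (p : P) :
    SS D (glue n f (cns p (fun _ => default))) (n + 1) = SS D f n + D p := by
  rw [SS_succ, SS_glue_le D f _ le_rfl]
  congr 2
  simp [glue, cns]

theorem wn_last (n : ℕ) (y : V) : wn F w D (n + 1) y = ∑ p ∈ F, w p * wn F w D n (y - D p) := by
  unfold wn
  rw [EE_last]
  refine Finset.sum_congr rfl ?_
  intro p _
  congr 1
  refine EE_congr ?_
  intro f _
  rw [SS_glue_last]
  have : SS D f n + D p = y ↔ SS D f n = y - D p := by
    rw [eq_sub_iff_add_eq]
  simp only [this]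

/-- DOOB: the conditional probabilities of the displacement, given the last pieces -/
theorem doob (hw : ∀ p ∈ F, 0 ≤ w p) (hw1 : ∑ p ∈ F, w p ≤ 1) {t : ℝ} (ht0 : 0 < t) (n : ℕ) :
    ∀ y : V, EE F w n (fun l => if ∃ i ≤ n, t ≤ wn F w D i (y - (SS D l n - SS D l i))
      then (1 : ℝ) else 0) ≤ wn F w D n y / t := by
  induction n with
  | zero =>
    intro y
    unfold EE
    beta_reduce
    split
    · rename_i h
      obtain ⟨i, hi, h⟩ := h
      have : i = 0 := by omega
      subst this
      rw [sub_self, sub_zero] at h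
      rw [le_div_iff₀ ht0]
      linarith
    · exact div_nonneg (wn_nonneg hw 0 y) ht0.le
  | succ n ih =>
    intro y
    by_cases h : t ≤ wn F w D (n + 1) y
    · have h1 : 1 ≤ wn F w D (n + 1) y / t := by rwa [le_div_iff₀ ht0, one_mul]
      refine le_trans (EE_le_one hw hw1 zero_le_one (fun _ _ => by split <;> norm_num)) h1
    · rw [EE_last, wn_last, Finset.sum_div]
      refine Finset.sum_le_sum ?_
      intro p hp
      rw [mul_div_assoc]
      refine mul_le_mul_of_nonneg_left ?_ (hw p hp)
      refine le_trans (EE_mono hw ?_) (ih (y - D p))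
      intro f _
      by_cases h2 : ∃ i ≤ n, t ≤ wn F w D i (y - D p - (SS D f n - SS D f i))
      · rw [if_pos h2]
        split <;> norm_num
      · rw [if_neg h2, if_neg]
        rintro ⟨i, hi, h3⟩
        rw [SS_glue_last] at h3
        rcases Nat.lt_or_ge i (n + 1) with h4 | h4
        · apply h2
          refine ⟨i, by omega, ?_⟩
          rw [SS_glue_le D f _ (show i ≤ n by omega)] at h3
          have e : y - D p - (SS D f n - SS D f i) = y - (SS D f n + D p - SS D f i) := by abel
          rw [e]
          exact h3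
        · have : i = n + 1 := by omega
          subst this
          rw [SS_glue_last, sub_self, sub_zero] at h3
          exact h h3

/-- layers -/
theorem layer {M : ℝ} (h1 : M ≤ 1) (K : ℕ) : M ≤ (1 / 2) ^ K +
    ∑ k ∈ range K, (1 / 2 : ℝ) ^ k * (if (1 / 2 : ℝ) ^ (k + 1) ≤ M then 1 else 0) := by
  induction K with
  | zero => simpa using h1
  | succ K ih =>
    rw [Finset.sum_range_succ]
    have h0 : 0 ≤ ∑ k ∈ range K, (1 / 2 : ℝ) ^ k * (if (1 / 2 : ℝ) ^ (k + 1) ≤ M then 1 else 0) :=
      Finset.sum_nonneg (fun k _ => mul_nonneg (by positivity) (by split <;> norm_num))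
    by_cases h : (1 / 2 : ℝ) ^ (K + 1) ≤ M
    · rw [if_pos h, mul_one]
      have h2 : (0 : ℝ) ≤ (1 / 2) ^ (K + 1) := by positivity
      linarith
    · rw [if_neg h, mul_zero, add_zero]
      rw [not_le] at h
      linarith

/-- at most `g + 1` final pieces of a list see the lowest common site -/
theorem low_count' (hD : ∀ p ∈ F, 1 ≤ ht (D p))
    (hp : ∀ p ∈ F, ∀ x ∈ pts p, 0 ≤ ht x ∧ ht x ≤ ht (D p)) (g : ℕ) {n m : ℕ} (hm : m + 1 ≤ n)
    (v : V) (B : ℕ → P) (hB : InF F n B) :
    ((range (m + 1)).filter (fun k =>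
      Low ht D pts Γ g (n - k) (v - SS D B k) (shl k B))).card ≤ g + 1 := by
  set T := (range (m + 1)).filter (fun k =>
      Low ht D pts Γ g (n - k) (v - SS D B k) (shl k B)) with hT
  rcases T.eq_empty_or_nonempty with he | hne
  · rw [he]; simp
  · set k' := T.max' hne with hk'
    have hk'm := Finset.max'_mem T hne
    rw [← hk', hT, Finset.mem_filter, Finset.mem_range] at hk'm
    obtain ⟨hk'N, ⟨x, hxΓ, i, hiK, hxi⟩, -⟩ := hk'm
    have hkey : ∀ k ∈ T, ht (v - SS D B k) ∈
        Finset.Icc (ht (v - SS D B k')) (ht (v - SS D B k') + g) := by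
      intro k hk
      have hkk' : k ≤ k' := Finset.le_max' T k hk
      rw [hT, Finset.mem_filter, Finset.mem_range] at hk
      obtain ⟨hkN, -, hlow⟩ := hk
      have h1 := ht_SS_mono hD hB hkk' (by omega)
      have e1 : v - SS D B k' - SS D (shl k' B) (i + 1) = v - SS D B (k' + i + 1) := by
        rw [show k' + i + 1 = k' + (i + 1) by ring, SS_add D B k' (i + 1), sub_sub]
      have hBi : B (k' + i) ∈ F := hB _ (by omega)
      have hxi' := hxi
      rw [e1] at hxi'
      have hs : shl k' B i = B (k' + i) := rfl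
      rw [hs] at hxi'
      have hx1 := hp _ hBi _ hxi'
      have e2 : ht x = ht (x - (v - SS D B (k' + i + 1))) + ht (v - SS D B (k' + i + 1)) := by
        rw [← map_add]; congr 1; abel
      have e3 : ht (v - SS D B (k' + i + 1)) = ht (v - SS D B (k' + i)) - ht (D (B (k' + i))) := by
        rw [SS_succ, ← map_sub]; congr 1; abel
      have hxtop : ht x ≤ ht (v - SS D B (k' + i)) := by omega
      have h2 := ht_SS_mono hD hB (show k' ≤ k' + i by omega) (by omega)
      have e4 : ht (v - SS D B (k' + i)) = ht v - ht (SS D B (k' + i)) := map_sub _ _ _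
      have e5 : ht (v - SS D B k') = ht v - ht (SS D B k') := map_sub _ _ _
      have e6 : ht (v - SS D B k) = ht v - ht (SS D B k) := map_sub _ _ _
      have hin : Dn D pts (v - SS D B k) (shl k B) (n - k) x := by
        refine ⟨k' + i - k, by omega, ?_⟩
        have e7 : v - SS D B k - SS D (shl k B) (k' + i - k + 1) = v - SS D B (k' + i + 1) := by
          rw [sub_sub, ← SS_add]
          congr 2
          omega
        have e8 : shl k B (k' + i - k) = B (k' + i) := by
          unfold shl
          congr 1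
          omega
        rw [e7, e8]
        exact hxi'
      have h7 := hlow x hxΓ hin
      rw [Finset.mem_Icc]
      push_cast at h1 h2
      constructor
      · omega
      · omega
    have hinj : Set.InjOn (fun k => ht (v - SS D B k)) (T : Set ℕ) := by
      intro k hk l hl heq
      rw [Finset.mem_coe, hT, Finset.mem_filter, Finset.mem_range] at hk hl
      simp only [map_sub] at heq
      rcases lt_trichotomy k l with h | h | h
      · have := ht_SS_mono hD hB h.le (show l ≤ n by omega)
        omega
      · exact h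
      · have := ht_SS_mono hD hB h.le (show k ≤ n by omega)
        omega
    calc T.card = (T.image (fun k => ht (v - SS D B k))).card :=
          (Finset.card_image_of_injOn hinj).symm
      _ ≤ (Finset.Icc (ht (v - SS D B k')) (ht (v - SS D B k') + g)).card := by
          refine Finset.card_le_card ?_
          intro y hy
          rw [Finset.mem_image] at hy
          obtain ⟨k, hk, rfl⟩ := hy
          exact hkey k hk
      _ = g + 1 := by
          rw [Int.card_Icc]
          omega

/-- the common site is in the first pieces -/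
theorem Low_cut (hD : ∀ p ∈ F, 1 ≤ ht (D p))
    (hp : ∀ p ∈ F, ∀ x ∈ pts p, 0 ≤ ht x ∧ ht x ≤ ht (D p)) {g n n' : ℕ} {v : V} {A : ℕ → P}
    (hA : InF F n A) (hn : g + 1 ≤ n') (hn' : n' ≤ n) (h : Low ht D pts Γ g n v A) :
    Low ht D pts Γ g n' v A := by
  obtain ⟨⟨x, hx, i, hi, hxi⟩, h2⟩ := h
  refine ⟨⟨x, hx, i, ?_, hxi⟩, ?_⟩
  · have h3 := h2 x hx ⟨i, hi, hxi⟩
    have h4 := (hp _ (hA i hi) _ hxi).2
    have e : ht (x - (v - SS D A (i + 1))) = ht x - ht v + (ht (SS D A i) + ht (D (A i))) := by
      rw [map_sub, map_sub, SS_succ, map_add]; ring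
    rw [e] at h4
    have h5 := ht_SS_mono hD hA (Nat.zero_le i) (by omega)
    rw [SS_zero, map_zero] at h5
    push_cast at h5
    omega
  · rintro y hy ⟨j, hj, hyj⟩
    exact h2 y hy ⟨j, by omega, hyj⟩

/-- the sum over the removed pieces, for a fixed set `Γ` -/
theorem J_core (hw : ∀ p ∈ F, 0 ≤ w p) (hw1 : ∑ p ∈ F, w p ≤ 1)
    (hD : ∀ p ∈ F, 1 ≤ ht (D p))
    (hp : ∀ p ∈ F, ∀ x ∈ pts p, 0 ≤ ht x ∧ ht x ≤ ht (D p)) {g n m : ℕ} (hm : m + g + 1 ≤ n)
    (K : ℕ) (x y : V) :
    ∑ i ∈ range (m + 1), EE F w i (fun f => EE F w n (fun A =>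
      if SS D A n = y ∧ Low ht D pts Γ g n (x - SS D f i) A then (1 : ℝ) else 0)) ≤
    (g + 1) * ((1 / 2) ^ K + 2 * K * wn F w D n y) := by
  -- the removed pieces on top, the first `n` pieces outside
  have h1 : ∀ i ∈ range (m + 1), EE F w i (fun f => EE F w n (fun A =>
      if SS D A n = y ∧ Low ht D pts Γ g n (x - SS D f i) A then (1 : ℝ) else 0)) ≤
      EE F w n (fun l => if Low ht D pts Γ g (n - i) (x - SS D l i) (shl i l)
        then wn F w D i (y - (SS D l n - SS D l i)) else 0) := by
    intro i hi
    rw [Finset.mem_range] at hi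
    have e1 : EE F w i (fun f => EE F w n (fun A =>
        if SS D A n = y ∧ Low ht D pts Γ g n (x - SS D f i) A then (1 : ℝ) else 0)) =
        EE F w (n + i) (fun B => if SS D (shl i B) n = y ∧
          Low ht D pts Γ g n (x - SS D B i) (shl i B) then (1 : ℝ) else 0) := by
      rw [Nat.add_comm n i, EE_add]
      refine EE_congr ?_
      intro f _
      refine EE_congr ?_
      intro A _
      rw [shl_glue, SS_glue_le D f A le_rfl]
    rw [e1, EE_add]
    refine EE_mono hw ?_
    intro l hl
    by_cases hlow : Low ht D pts Γ g (n - i) (x - SS D l i) (shl i l)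
    · rw [if_pos hlow]
      unfold wn
      refine EE_mono hw ?_
      intro h _
      by_cases h2 : SS D (shl i (glue n l h)) n = y ∧
          Low ht D pts Γ g n (x - SS D (glue n l h) i) (shl i (glue n l h))
      · rw [if_pos h2, if_pos]
        have e2 : SS D (glue n l h) (i + n) = SS D (glue n l h) (n + i) := by rw [Nat.add_comm]
        rw [SS_add, SS_add D _ n i, shl_glue, SS_glue_le D l h (show i ≤ n by omega),
          SS_glue_le D l h le_rfl, h2.1] at e2
        rw [eq_sub_iff_add_eq]
        calc SS D h i + (SS D l n - SS D l i) = (SS D l n + SS D h i) - SS D l i := by abel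
          _ = y := by rw [← e2]; abel
      · rw [if_neg h2]
        split <;> norm_num
    · rw [if_neg hlow]
      refine le_trans (EE_mono hw (Ψ := fun _ => (0 : ℝ)) ?_) (le_of_eq (EE_zero_fun i))
      intro h hh
      rw [if_neg]
      rintro ⟨_, h2⟩
      apply hlow
      rw [SS_glue_le D l h (show i ≤ n by omega)] at h2
      have hin : InF F n (shl i (glue n l h)) := by
        have h3 : InF F (n + i) (glue n l h) := hl.glue hh
        rw [Nat.add_comm] at h3
        exact h3.shl
      have h3 := Low_cut hD hp hin (show g + 1 ≤ n - i by omega) (by omega) h2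
      rw [Low_congr (A' := shl i l)] at h3
      · exact h3
      · intro j hj
        unfold shl
        rw [glue_lt _ _ (by omega)]
  refine le_trans (Finset.sum_le_sum h1) ?_
  rw [← EE_sum]
  -- pointwise
  have h2 : ∀ l, InF F n l → ∑ i ∈ range (m + 1),
      (if Low ht D pts Γ g (n - i) (x - SS D l i) (shl i l)
        then wn F w D i (y - (SS D l n - SS D l i)) else 0) ≤
      (g + 1) * ((1 / 2) ^ K + ∑ k ∈ range K, (1 / 2 : ℝ) ^ k *
        (if ∃ i ≤ n, (1 / 2 : ℝ) ^ (k + 1) ≤ wn F w D i (y - (SS D l n - SS D l i))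
          then 1 else 0)) := by
    intro l hl
    rw [← Finset.sum_filter]
    have h3 := low_count' (Γ := Γ) hD hp g (show m + 1 ≤ n by omega) x l hl
    have hM0 : 0 ≤ ((1 / 2 : ℝ) ^ K + ∑ k ∈ range K, (1 / 2 : ℝ) ^ k *
        (if ∃ i ≤ n, (1 / 2 : ℝ) ^ (k + 1) ≤ wn F w D i (y - (SS D l n - SS D l i))
          then 1 else 0)) := by
      have : 0 ≤ ∑ k ∈ range K, (1 / 2 : ℝ) ^ k *
        (if ∃ i ≤ n, (1 / 2 : ℝ) ^ (k + 1) ≤ wn F w D i (y - (SS D l n - SS D l i))
          then (1 : ℝ) else 0) :=
        Finset.sum_nonneg (fun k _ => mul_nonneg (by positivity) (by split <;> norm_num))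
      positivity
    refine le_trans (Finset.sum_le_card_nsmul _ _ ((1 / 2 : ℝ) ^ K + ∑ k ∈ range K, (1 / 2 : ℝ) ^ k *
        (if ∃ i ≤ n, (1 / 2 : ℝ) ^ (k + 1) ≤ wn F w D i (y - (SS D l n - SS D l i))
          then 1 else 0)) ?_) ?_
    · intro i hi
      rw [Finset.mem_filter, Finset.mem_range] at hi
      refine le_trans (layer (wn_le_one hw hw1 i _) K) ?_
      refine add_le_add le_rfl (Finset.sum_le_sum ?_)
      intro k _
      refine mul_le_mul_of_nonneg_left ?_ (by positivity)
      by_cases h4 : (1 / 2 : ℝ) ^ (k + 1) ≤ wn F w D i (y - (SS D l n - SS D l i))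
      · rw [if_pos h4, if_pos ⟨i, by omega, h4⟩]
      · rw [if_neg h4]
        split <;> norm_num
    · rw [nsmul_eq_mul]
      refine mul_le_mul_of_nonneg_right ?_ hM0
      exact_mod_cast h3
  refine le_trans (EE_mono hw h2) ?_
  rw [EE_mul_left]
  refine mul_le_mul_of_nonneg_left ?_ (by positivity)
  rw [EE_add_fun, EE_sum]
  refine add_le_add (EE_le_one hw hw1 (by positivity) (fun _ _ => le_rfl)) ?_
  have h5 : ∀ k ∈ range K, EE F w n (fun l => (1 / 2 : ℝ) ^ k *
        (if ∃ i ≤ n, (1 / 2 : ℝ) ^ (k + 1) ≤ wn F w D i (y - (SS D l n - SS D l i))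
          then 1 else 0)) ≤ 2 * wn F w D n y := by
    intro k _
    rw [EE_mul_left]
    have h6 := doob (D := D) hw hw1 (t := (1 / 2 : ℝ) ^ (k + 1)) (by positivity) n y
    calc (1 / 2 : ℝ) ^ k * EE F w n (fun l =>
          if ∃ i ≤ n, (1 / 2 : ℝ) ^ (k + 1) ≤ wn F w D i (y - (SS D l n - SS D l i))
          then 1 else 0) ≤ (1 / 2 : ℝ) ^ k * (wn F w D n y / (1 / 2 : ℝ) ^ (k + 1)) :=
          mul_le_mul_of_nonneg_left h6 (by positivity)
      _ = 2 * wn F w D n y := by
          have : ((1 : ℝ) / 2) ^ k ≠ 0 := by positivity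
          rw [pow_succ]
          field_simp
  refine le_trans (Finset.sum_le_sum h5) ?_
  rw [Finset.sum_const, card_range, nsmul_eq_mul]
  apply le_of_eq
  ring

/-- the law of the displacement is all that matters -/
theorem EE_law (hlaw : law F w D' = law F w D) (n : ℕ) (Φ : V → ℝ) :
    EE F w n (fun f => Φ (SS D f n)) = EE F w n (fun f => Φ (SS D' f n)) := by
  rw [← ev_EE', ← ev_EE', hlaw]

theorem EE_first (hw : ∀ p ∈ F, 0 ≤ w p) (hw1 : ∑ p ∈ F, w p ≤ 1) {N : ℕ} (hN : 1 ≤ N)
    (c : P → ℝ) (hc : ∀ p ∈ F, 0 ≤ c p) :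
    EE F w N (fun h => c (h 0)) ≤ ∑ p ∈ F, w p * c p := by
  obtain ⟨k, rfl⟩ : ∃ k, N = k + 1 := ⟨N - 1, by omega⟩
  change ∑ p ∈ F, w p * EE F w k (fun s => c p) ≤ _
  refine Finset.sum_le_sum ?_
  intro p hp
  exact mul_le_mul_of_nonneg_left (EE_le_one hw hw1 (hc p hp) (fun _ _ => le_rfl)) (hw p hp)

/-- the cut below the level `t` -/
def Cr (ht : V →+ ℤ) (D : P → V) (G : ℕ → P) (t i : ℕ) : Prop :=
  ht (SS D G i) ≤ t ∧ (t : ℤ) < ht (SS D G (i + 1))

theorem Cr_exists (G : ℕ → P) (t m : ℕ) : (∃ i ∈ range (m + 1), Cr ht D G t i) ∨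
    ht (SS D G (m + 1)) ≤ t := by
  induction m with
  | zero =>
    by_cases h : ht (SS D G 1) ≤ t
    · exact Or.inr h
    · left
      refine ⟨0, by simp, ?_, by simpa using h⟩
      rw [SS_zero, map_zero]
      positivity
  | succ m ih =>
    by_cases h : ht (SS D G (m + 1 + 1)) ≤ t
    · exact Or.inr h
    · left
      rcases ih with ⟨i, hi, h1⟩ | h1
      · rw [Finset.mem_range] at hi
        exact ⟨i, by rw [Finset.mem_range]; omega, h1⟩
      · refine ⟨m + 1, by simp, h1, by simpa using h⟩

theorem Cr_card (G : ℕ → P) (T i : ℕ) (h0 : 0 ≤ ht (SS D G i)) (h1 : 0 ≤ ht (D (G i))) :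
    (∑ t ∈ range T, if Cr ht D G t i then (1 : ℝ) else 0) ≤ min (T : ℝ) (ht (D (G i))) := by
  rw [← Finset.sum_filter, Finset.sum_const, nsmul_eq_mul, mul_one]
  refine le_min ?_ ?_
  · have : ((range T).filter (fun t => Cr ht D G t i)).card ≤ T := by
      refine le_trans (Finset.card_filter_le _ _) ?_
      rw [card_range]
    exact_mod_cast this
  · have h2 : ((range T).filter (fun t => Cr ht D G t i)).card ≤
        (Finset.Ico (ht (SS D G i)) (ht (SS D G (i + 1)))).card := by
      refine Finset.card_le_card_of_injOn (fun t : ℕ => (t : ℤ)) ?_ ?_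
      · intro t ht'
        rw [Finset.mem_coe, Finset.mem_filter] at ht'
        rw [Finset.mem_coe, Finset.mem_Ico]
        exact ht'.2
      · intro a _ b _ hab
        exact Int.ofNat_inj.1 hab
    rw [Int.card_Ico, SS_succ, map_add, add_sub_cancel_left] at h2
    have h3 : (((ht (D (G i))).toNat : ℕ) : ℝ) = ((ht (D (G i)) : ℤ) : ℝ) := by
      have := Int.toNat_of_nonneg h1
      exact_mod_cast this
    rw [← h3]
    exact_mod_cast h2

/-- LEMMA J -/
theorem lemma_J (hw : ∀ p ∈ F, 0 ≤ w p) (hw1 : ∑ p ∈ F, w p ≤ 1)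
    (hD : ∀ p ∈ F, 1 ≤ ht (D p)) (hD' : ∀ p ∈ F, 1 ≤ ht (D' p))
    (hlaw : law F w D' = law F w D)
    (hp : ∀ p ∈ F, ∀ x ∈ pts p, 0 ≤ ht x ∧ ht x ≤ ht (D p))
    (hp' : ∀ p ∈ F, ∀ x ∈ pts' p, 0 ≤ ht x ∧ ht x ≤ ht (D' p))
    {g n m N T K : ℕ} {x : V} (hT : 1 ≤ T) (hx : (T : ℤ) + g ≤ ht x) (hm : m + g + 1 ≤ n)
    (hN : ht x + m + 1 ≤ N) (hhalf : (1 : ℝ) / 2 ≤ (∑ p ∈ F, w p) ^ m) (y : V) :
    EE F w N (fun G => EE F w n (fun A => if SS D' A n = y ∧
        Low ht D' pts' {z | Up D pts G N z} g n x A then (1 : ℝ) else 0)) ≤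
      2 * (g + 1) * ((∑ p ∈ F, w p * min (T : ℝ) (ht (D p))) / T) *
        ((1 / 2) ^ K + 2 * K * wn F w D' n y) +
      wn F w D' n y * EE F w (m + 1) (fun f => if ht (SS D f (m + 1)) < T then 1 else 0) := by
  have hNm : m + 1 ≤ N := by
    have : (0 : ℤ) ≤ (T : ℤ) := by positivity
    have : (0 : ℤ) ≤ (g : ℤ) := by positivity
    omega
  have hTr : (0 : ℝ) < T := by exact_mod_cast hT
  -- the inner probabilities
  set Q : ℕ → V → (ℕ → P) → ℝ := fun k v h => EE F w n (fun A => if SS D' A n = y ∧
        Low ht D' pts' {z | Up D pts h k z} g n v A then (1 : ℝ) else 0) with hQ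
  have hQ0 : ∀ k v h, 0 ≤ Q k v h := fun k v h =>
    EE_nonneg hw (fun _ _ => by split <;> norm_num)
  have hQw : ∀ k v h, Q k v h ≤ wn F w D' n y := by
    intro k v h
    refine EE_mono hw ?_
    intro A _
    by_cases h1 : SS D' A n = y
    · rw [if_pos h1]
      split <;> norm_num
    · rw [if_neg h1, if_neg (fun h2 => h1 h2.1)]
  have hc0 : ∀ p ∈ F, 0 ≤ min (T : ℝ) (ht (D p)) := by
    intro p hp1
    have h1 := hD p hp1
    have h2 : (0 : ℝ) ≤ ((ht (D p) : ℤ) : ℝ) := by
      have : (0 : ℤ) ≤ ht (D p) := by omega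
      exact_mod_cast this
    exact le_min hTr.le h2
  -- step A: the removal of the pieces below the level `t`
  have hA1 : ∀ G, InF F N G → (T : ℝ) * Q N x G ≤
      ∑ i ∈ range (m + 1), min (T : ℝ) (ht (D (G i))) * Q (N - i) (x - SS D G i) (shl i G) +
      T * (wn F w D' n y * (if ht (SS D G (m + 1)) < T then 1 else 0)) := by
    intro G hG
    have h0 : ∀ i ≤ N, (i : ℤ) ≤ ht (SS D G i) := by
      intro i hi
      have := ht_SS_mono hD hG (Nat.zero_le i) hi
      rw [SS_zero, map_zero] at this
      push_cast at this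
      linarith
    have h1 : ∀ t ∈ range T, Q N x G ≤
        ∑ i ∈ range (m + 1), (if Cr ht D G t i then (1 : ℝ) else 0) *
          Q (N - i) (x - SS D G i) (shl i G) +
        wn F w D' n y * (if ht (SS D G (m + 1)) < T then 1 else 0) := by
      intro t ht1
      rw [Finset.mem_range] at ht1
      have hS0 : ∀ i ∈ range (m + 1), 0 ≤ (if Cr ht D G t i then (1 : ℝ) else 0) *
          Q (N - i) (x - SS D G i) (shl i G) := fun i _ =>
        mul_nonneg (by split <;> norm_num) (hQ0 _ _ _)
      rcases Cr_exists (ht := ht) (D := D) G t m with ⟨i, hi, hcr⟩ | h2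
      · have h3 : Q N x G ≤ Q (N - i) (x - SS D G i) (shl i G) := by
          rw [Finset.mem_range] at hi
          refine EE_mono hw ?_
          intro A hA
          by_cases h4 : SS D' A n = y ∧ Low ht D' pts' {z | Up D pts G N z} g n x A
          · rw [if_pos h4, if_pos]
            obtain ⟨h5, ⟨z, ⟨j, hj, hzj⟩, i2, hi2, hzi⟩, h7⟩ := h4
            refine ⟨h5, ⟨z - SS D G i, ?_, i2, hi2, ?_⟩, ?_⟩
            · -- the piece of the common site is above the level
              have h8 := h7 z ⟨j, hj, hzj⟩ ⟨i2, hi2, hzi⟩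
              have h9 := Up_ht hD hp hG hj hzj
              have hji : i ≤ j := by
                by_contra hcon
                have h10 := ht_SS_mono hD hG (show j + 1 ≤ i by omega) (by omega)
                have h11 := hcr.1
                push_cast at h10
                omega
              refine ⟨j - i, by omega, ?_⟩
              have e1 : z - SS D G i - SS D (shl i G) (j - i) = z - SS D G j := by
                rw [sub_sub, ← SS_add]
                congr 2
                omega
              have e2 : shl i G (j - i) = G j := by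
                unfold shl
                congr 1
                omega
              rw [e1, e2]
              exact hzj
            · have e1 : z - SS D G i - (x - SS D G i - SS D' A (i2 + 1)) =
                  z - (x - SS D' A (i2 + 1)) := by abel
              rw [e1]
              exact hzi
            · rintro z' ⟨j', hj', hz'⟩ ⟨i3, hi3, hz3⟩
              have h8 := h7 (z' + SS D G i) ⟨i + j', by omega, ?_⟩ ⟨i3, hi3, ?_⟩
              · rw [map_add] at h8
                rw [map_sub]
                linarith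
              · rw [SS_add]
                have e1 : z' + SS D G i - (SS D G i + SS D (shl i G) j') =
                    z' - SS D (shl i G) j' := by abel
                rw [e1]
                exact hz'
              · have e1 : z' + SS D G i - (x - SS D' A (i3 + 1)) =
                    z' - (x - SS D G i - SS D' A (i3 + 1)) := by abel
                rw [e1]
                exact hz3
          · rw [if_neg h4]
            split <;> norm_num
        refine le_trans h3 ?_
        have h12 := Finset.single_le_sum hS0 hi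
        rw [if_pos hcr, one_mul] at h12
        have h13 : 0 ≤ wn F w D' n y * (if ht (SS D G (m + 1)) < T then (1 : ℝ) else 0) :=
          mul_nonneg (wn_nonneg hw n y) (by split <;> norm_num)
        linarith
      · have h3 : ht (SS D G (m + 1)) < T := by
          have : (t : ℤ) < T := by exact_mod_cast ht1
          omega
        rw [if_pos h3, mul_one]
        have h4 := Finset.sum_nonneg hS0
        have h5 := hQw N x G
        linarith
    have h2 := Finset.sum_le_sum h1
    rw [Finset.sum_const, card_range, nsmul_eq_mul, Finset.sum_add_distrib, Finset.sum_comm,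
      Finset.sum_const, card_range, nsmul_eq_mul] at h2
    refine le_trans h2 (add_le_add ?_ le_rfl)
    refine Finset.sum_le_sum ?_
    intro i hi
    rw [Finset.mem_range] at hi
    rw [← Finset.sum_mul]
    refine mul_le_mul_of_nonneg_right (Cr_card G T i ?_ ?_) (hQ0 _ _ _)
    · exact le_trans (by positivity) (h0 i (by omega))
    · exact le_trans zero_le_one (hD _ (hG i (by omega)))
  -- step A2: prolongation
  have hA2 : ∀ i ∈ range (m + 1), EE F w N (fun G => min (T : ℝ) (ht (D (G i))) *
      Q (N - i) (x - SS D G i) (shl i G)) ≤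
      2 * EE F w N (fun h => min (T : ℝ) (ht (D (h 0))) *
        EE F w i (fun f => Q N (x - SS D' f i) h)) := by
    intro i hi
    rw [Finset.mem_range] at hi
    obtain ⟨r, hr⟩ : ∃ r, N = i + r := ⟨N - i, by omega⟩
    have hr0 : 1 ≤ r := by omega
    have e1 : EE F w N (fun G => min (T : ℝ) (ht (D (G i))) *
        Q (N - i) (x - SS D G i) (shl i G)) =
        EE F w i (fun f => EE F w r (fun h => min (T : ℝ) (ht (D (h 0))) *
          Q r (x - SS D f i) h)) := by
      rw [hr, EE_add]
      refine EE_congr ?_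
      intro f _
      refine EE_congr ?_
      intro h _
      rw [shl_glue, SS_glue_le D f h le_rfl]
      have e2 : glue i f h i = h 0 := by
        unfold glue
        rw [if_neg (by omega), Nat.sub_self]
      rw [e2, Nat.add_sub_cancel_left]
    have h2 : ∀ f, InF F i f → EE F w r (fun h => min (T : ℝ) (ht (D (h 0))) *
          Q r (x - SS D f i) h) ≤ 2 * EE F w N (fun h => min (T : ℝ) (ht (D (h 0))) *
          Q N (x - SS D f i) h) := by
      intro f hf
      have h3 := EE_extend (F := F) (w := w) hw (a := r) (b := i)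
        (half_mono hw hw1 (show i ≤ m by omega) hhalf)
        (Φ := fun h => min (T : ℝ) (ht (D (h 0))) * Q r (x - SS D f i) h)
        (fun h hh => mul_nonneg (hc0 _ (hh 0 (by omega))) (hQ0 _ _ _))
        (Ψ := fun h => min (T : ℝ) (ht (D (h 0))) * Q N (x - SS D f i) h) ?_
      · rw [Nat.add_comm r i, ← hr] at h3
        exact h3
      · intro h h' hh hh'
        have e2 : glue r h h' 0 = h 0 := glue_lt _ _ (by omega)
        rw [e2]
        refine mul_le_mul_of_nonneg_left ?_ (hc0 _ (hh 0 (by omega)))
        refine EE_mono hw ?_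
        intro A hA
        by_cases h4 : SS D' A n = y ∧ Low ht D' pts' {z | Up D pts h r z} g n (x - SS D f i) A
        · rw [if_pos h4, if_pos]
          obtain ⟨h5, ⟨z, ⟨j, hj, hzj⟩, hzA⟩, h7⟩ := h4
          refine ⟨h5, ⟨z, ⟨j, by omega, ?_⟩, hzA⟩, ?_⟩
          · rw [SS_glue_le D h h' (show j ≤ r by omega), glue_lt _ _ hj]
            exact hzj
          · rintro z' ⟨j', hj', hz'⟩ hzA'
            rcases Nat.lt_or_ge j' r with h8 | h8
            · refine h7 z' ⟨j', h8, ?_⟩ hzA'
              rw [SS_glue_le D h h' (show j' ≤ r by omega), glue_lt _ _ h8] at hz'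
              exact hz'
            · have hG : InF F N (glue r h h') := by
                have := hh.glue hh'
                rw [Nat.add_comm, ← hr] at this
                exact this
              have h9 := (Up_ht hD hp hG hj' hz').1
              have h10 := ht_SS_mono hD hG (Nat.zero_le j') (by omega)
              rw [SS_zero, map_zero] at h10
              have h11 := ht_SS_mono hD hf (Nat.zero_le i) le_rfl
              rw [SS_zero, map_zero] at h11
              rw [map_sub]
              push_cast at h10 h11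
              have h12 : (r : ℤ) ≤ j' := by exact_mod_cast h8
              have h13 : (N : ℤ) = i + r := by exact_mod_cast hr
              have h14 : (i : ℤ) ≤ m := by
                have : i ≤ m := by omega
                exact_mod_cast this
              omega
        · rw [if_neg h4]
          split <;> norm_num
    rw [e1]
    refine le_trans (EE_mono hw h2) ?_
    rw [EE_mul_left, EE_swap]
    refine mul_le_mul_of_nonneg_left (le_of_eq ?_) (by norm_num)
    refine EE_congr ?_
    intro h _
    rw [EE_mul_left]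
    congr 1
    exact EE_law hlaw i (fun v => Q N (x - v) h)
  -- step B
  have hB : ∀ h, InF F N h → ∑ i ∈ range (m + 1), min (T : ℝ) (ht (D (h 0))) *
        EE F w i (fun f => Q N (x - SS D' f i) h) ≤
      min (T : ℝ) (ht (D (h 0))) * ((g + 1) * ((1 / 2) ^ K + 2 * K * wn F w D' n y)) := by
    intro h hh
    rw [← Finset.mul_sum]
    refine mul_le_mul_of_nonneg_left ?_ (hc0 _ (hh 0 (by omega)))
    exact J_core hw hw1 hD' hp' hm K x y
  -- end
  have hZ : (T : ℝ) * EE F w N (fun G => Q N x G) ≤
      2 * ((∑ p ∈ F, w p * min (T : ℝ) (ht (D p))) *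
        ((g + 1) * ((1 / 2) ^ K + 2 * K * wn F w D' n y))) +
      T * (wn F w D' n y *
        EE F w (m + 1) (fun f => if ht (SS D f (m + 1)) < T then 1 else 0)) := by
    rw [← EE_mul_left]
    refine le_trans (EE_mono hw hA1) ?_
    rw [EE_add_fun, EE_sum]
    refine add_le_add ?_ ?_
    · refine le_trans (Finset.sum_le_sum hA2) ?_
      rw [← Finset.mul_sum, ← EE_sum]
      refine mul_le_mul_of_nonneg_left ?_ (by norm_num)
      refine le_trans (EE_mono hw hB) ?_
      have e3 : EE F w N (fun h => min (T : ℝ) (ht (D (h 0))) *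
          ((g + 1) * ((1 / 2) ^ K + 2 * K * wn F w D' n y))) =
          ((g + 1) * ((1 / 2) ^ K + 2 * K * wn F w D' n y)) *
          EE F w N (fun h => min (T : ℝ) (ht (D (h 0)))) := by
        rw [← EE_mul_left]
        refine EE_congr ?_
        intro h _
        ring
      rw [e3, mul_comm]
      refine mul_le_mul_of_nonneg_right ?_ ?_
      · exact EE_first hw hw1 (by omega) (fun p => min (T : ℝ) (ht (D p))) hc0
      · have := wn_nonneg (D := D') hw n y
        positivity
    · rw [EE_mul_left, EE_mul_left]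
      refine mul_le_mul_of_nonneg_left (mul_le_mul_of_nonneg_left ?_ (wn_nonneg hw n y)) hTr.le
      obtain ⟨r, hr⟩ : ∃ r, N = (m + 1) + r := ⟨N - (m + 1), by omega⟩
      rw [hr, EE_add]
      refine EE_mono hw ?_
      intro f _
      refine EE_le_one hw hw1 (by split <;> norm_num) ?_
      intro h _
      rw [SS_glue_le D f h le_rfl]
  have hfin : EE F w N (fun G => Q N x G) ≤
      (2 * ((∑ p ∈ F, w p * min (T : ℝ) (ht (D p))) *
        ((g + 1) * ((1 / 2) ^ K + 2 * K * wn F w D' n y))) +
      T * (wn F w D' n y *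
        EE F w (m + 1) (fun f => if ht (SS D f (m + 1)) < T then 1 else 0))) / T := by
    rw [le_div_iff₀ hTr, mul_comm]
    exact hZ
  refine le_trans hfin (le_of_eq ?_)
  field_simp

end J

end Pool.Agent.R19
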